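import Pool.Agent.helper66.FB.Spec2
import Pool.Agent.helper11.FB.QE

/-!
Modules GB and AV of part B: greedy choice of a set with small energy, and the decay of the probability of
avoiding a set.
-/

set_option autoImplicit false

open scoped BigOperators Topology
open Filter MeasureTheory

namespace Pool.Agent.helper66.FB

open Finset
open Pool.Agent.helper20.HP

theorem GB_Gr_nonneg {V : Type} [Fintype V] [DecidableEq V] (K : HW V) (T : ℕ) (x y : V) :
    0 ≤ Gr K T x y := by
  unfold Gr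
  exact Finset.sum_nonneg fun u _ => pt_nonneg K u x y

theorem GB_Gr_symm {V : Type} [Fintype V] [DecidableEq V] (K : HW V) (T : ℕ) (x y : V) :
    Gr K T x y = Gr K T y x := by
  unfold Gr
  exact Finset.sum_congr rfl fun u _ => pt_symm K u x y

theorem GB_Gr_sum {V : Type} [Fintype V] [DecidableEq V] (K : HW V) (T : ℕ) (x : V) :
    ∑ y, Gr K T x y = (T : ℝ) + 1 := by
  unfold Gr
  rw [Finset.sum_comm]
  rw [Finset.sum_congr rfl fun u _ => pt_sum K u x]
  simp

theorem GB_Gr_diag {V : Type} [Fintype V] [DecidableEq V] {K : HW V} {θ : ℝ} {h : ℕ}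
    (hP : Par K θ h) {T : ℕ} (hT : T ≤ Nat.sqrt (Fintype.card V)) (x : V) :
    Gr K T x x ≤ θ := by
  unfold Gr
  rw [Finset.sum_congr rfl fun u _ => cc_eq K u x]
  exact cc_sum_le hP (by omega)

theorem GB : GB_stmt := by
  intro V _ _ K θ h hP N T hN hT
  have hn0 : 0 < Fintype.card V := hP.card_pos
  have hn : (0 : ℝ) < (Fintype.card V : ℝ) := by exact_mod_cast hn0
  induction N with
  | zero =>
    refine ⟨∅, by simp, ?_⟩
    simp [En]
  | succ N ih =>
    obtain ⟨B, hBc, hBE⟩ := ih (by omega)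
    set n : ℝ := (Fintype.card V : ℝ) with hndef
    have hcc : (Bᶜ).card = Fintype.card V - N := by
      rw [Finset.card_compl, hBc]
    have hne : (Bᶜ).Nonempty := by
      rw [← Finset.card_pos, hcc]
      omega
    have hcR : ((Bᶜ).card : ℝ) = n - N := by
      rw [hcc, Nat.cast_sub (by omega)]
    have hNR : 2 * ((N : ℝ) + 1) ≤ n := by
      have : ((2 * (N + 1) : ℕ) : ℝ) ≤ ((Fintype.card V : ℕ) : ℝ) := by exact_mod_cast hN
      push_cast at this
      exact this
    have hT0 : (0 : ℝ) ≤ (T : ℝ) := Nat.cast_nonneg T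
    have hN0 : (0 : ℝ) ≤ (N : ℝ) := Nat.cast_nonneg N
    have hsum : ∑ b ∈ Bᶜ, (∑ x ∈ B, Gr K T x b) ≤ ∑ b ∈ Bᶜ, (2 * (N : ℝ) * (T + 1) / n) := by
      have h1 : ∑ b ∈ Bᶜ, (∑ x ∈ B, Gr K T x b) ≤ ∑ b, (∑ x ∈ B, Gr K T x b) := by
        refine Finset.sum_le_sum_of_subset_of_nonneg (Finset.subset_univ _) fun b _ _ => ?_
        exact Finset.sum_nonneg fun x _ => GB_Gr_nonneg K T x b
      have h2 : ∑ b, (∑ x ∈ B, Gr K T x b) = (N : ℝ) * (T + 1) := by
        rw [Finset.sum_comm, Finset.sum_congr rfl fun x _ => GB_Gr_sum K T x]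
        rw [Finset.sum_const, hBc, nsmul_eq_mul]
      rw [h2] at h1
      refine h1.trans ?_
      rw [Finset.sum_const, nsmul_eq_mul, hcR]
      rw [mul_div_assoc', le_div_iff₀ hn]
      have h3 : n ≤ 2 * (n - N) := by linarith
      have h4 : 0 ≤ (N : ℝ) * (T + 1) := by positivity
      nlinarith [mul_le_mul_of_nonneg_left h3 h4]
    obtain ⟨b, hb, hbE⟩ := Finset.exists_le_of_sum_le hne hsum
    have hbB : b ∉ B := by simpa using hb
    refine ⟨insert b B, by rw [Finset.card_insert_of_notMem hbB, hBc], ?_⟩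
    have hexp : En K T (insert b B) (insert b B)
        = Gr K T b b + 2 * (∑ x ∈ B, Gr K T x b) + En K T B B := by
      unfold En
      rw [Finset.sum_insert hbB, Finset.sum_insert hbB]
      have h5 : ∑ x ∈ B, ∑ y ∈ insert b B, Gr K T x y
          = ∑ x ∈ B, Gr K T x b + ∑ x ∈ B, ∑ y ∈ B, Gr K T x y := by
        rw [← Finset.sum_add_distrib]
        exact Finset.sum_congr rfl fun x _ => Finset.sum_insert hbB
      have h6 : ∑ y ∈ B, Gr K T b y = ∑ x ∈ B, Gr K T x b :=
        Finset.sum_congr rfl fun x _ => GB_Gr_symm K T b x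
      rw [h5, h6]
      ring
    rw [hexp]
    have hd := GB_Gr_diag hP hT b
    have h7 : 2 * (2 * (N : ℝ) * (T + 1) / n) + 2 * (N : ℝ) ^ 2 * (T + 1) / n
        ≤ 2 * ((N : ℝ) + 1) ^ 2 * (T + 1) / n := by
      rw [mul_div_assoc', ← add_div]
      refine div_le_div_of_nonneg_right ?_ hn.le
      nlinarith
    push_cast
    linarith

theorem AV : AV_stmt := by
  intro V _ _ K U T h₀ k q hh hpt hq hQ x
  have hQ1 : Q K U T ≤ 1 := by
    unfold Q
    have hn : (0 : ℝ) < (Fintype.card V : ℝ) := by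
      have : Nonempty V := ⟨x⟩
      exact_mod_cast Fintype.card_pos
    rw [div_le_one hn]
    calc ∑ x, W K T x (fun l => ind (∃ z ∈ x :: l, z ∈ U))
        ≤ ∑ x : V, (1 : ℝ) := by
          refine Finset.sum_le_sum fun x _ => ?_
          rw [← W_const K T x 1]
          exact W_mono K _ _ fun l _ => ind_le_one _
      _ = (Fintype.card V : ℝ) := by simp
  exact QH_iter K U (h₀ + T) (1 - q / 2) (by linarith)
    (fun x => QH_one K U T h₀ q hh hpt hQ x) k x

end Pool.Agent.helper66.FB
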