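import Pool.Agent.helper66.FB.Spec2

/-!
Module H5 of part B: paths contained in a forest rooted at `B`, compared with the forests rooted at the path.
-/

set_option autoImplicit false

open scoped BigOperators Topology
open Filter MeasureTheory

namespace Pool.Agent.helper66.FB

open Finset
open Pool.Agent.helper72.UT (IsFor dep pth rt fors Reg lz PathTo)
open Pool.Agent.helper20.HP

theorem H5_dir_compl {V : Type} [Fintype V] [DecidableEq V] (K : HW V) (u : V → ℝ) :
    dir K (fun x => 1 - u x) (fun x => 1 - u x) = dir K u u := by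
  unfold dir
  congr 1
  refine Finset.sum_congr rfl fun x _ => Finset.sum_congr rfl fun z _ => ?_
  ring

theorem H5_har_compl {V : Type} [Fintype V] [DecidableEq V] (K : HW V) (A R : Finset V) (u : V → ℝ)
    (h : Har K A R u) : Har K R A (fun x => 1 - u x) := by
  refine ⟨fun x hx => ?_, fun x hx => ?_, fun x hx hx' => ?_⟩
  · simp [h.zero x hx]
  · simp [h.one x hx]
  · have h1 := h.harm x hx' hx
    have h2 : ∑ z, K.p x z * (1 - u z) = ∑ z, K.p x z - ∑ z, K.p x z * u z := by
      rw [← Finset.sum_sub_distrib]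
      exact Finset.sum_congr rfl fun z _ => by ring
    show 1 - u x = ∑ z, K.p x z * (1 - u z)
    rw [h2, K.sum_one, ← h1]

theorem H5_main (hX : HX_stmt) (hRAY : RAY_stmt) (h2 : H2_stmt)
    (V : Type) [Fintype V] [DecidableEq V] (G : SimpleGraph V) (d : ℕ) (K : HW V) (hR : Reg G d)
    (hK : K.p = lz G d) (B : Finset V) (y : V) (hB : B.Nonempty) :
    ∀ η : List V, PathTo G y η → (∀ x ∈ η, x ∉ B) → ∀ u : V → ℝ, Har K B η.toFinset u →
      2 * d * ((fors G (B ∪ η.toFinset)).card : ℝ) * dir K u u * (fors G {y}).card ≤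
        (fors G η.toFinset).card * (fors G B).card := by
  obtain ⟨-, -, hex, -, -, hpos⟩ := hX V G d K hR hK
  have hd : (0 : ℝ) < d := by exact_mod_cast hR.pos
  intro η
  induction η with
  | nil =>
    intro hp
    have := hp.last
    simp at this
  | cons v η' ih =>
    intro hp hav u hu
    rcases η' with _ | ⟨w, η''⟩
    · have hv : v = y := by
        have := hp.last
        simpa using this
      subst hv
      have hvB : v ∉ B := hav v (by simp)
      have e1 : ([v] : List V).toFinset = {v} := by simp
      rw [e1] at hu ⊢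
      have h3 := h2 V G d K hR hK B v hB hvB (fun x => 1 - u x) (H5_har_compl K B {v} u hu)
      rw [H5_dir_compl] at h3
      have e2 : B ∪ {v} = insert v B := by rw [Finset.union_comm, Finset.insert_eq]
      rw [e2, h3]
      exact le_of_eq (by ring)
    · set η' := w :: η'' with hη'
      have hlast : η'.getLast? = some y := by
        have := hp.last
        rw [hη'] at this ⊢
        rwa [List.getLast?_cons_cons] at this
      have hp' : PathTo G y η' :=
        ⟨(List.isChain_cons_cons.mp hp.chain).2, (List.nodup_cons.mp hp.nodup).2, hlast⟩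
      have hvη : v ∉ η' := (List.nodup_cons.mp hp.nodup).1
      have hvB : v ∉ B := hav v (by simp)
      have hav' : ∀ x ∈ η', x ∉ B := fun x hx => hav x (List.mem_cons_of_mem _ hx)
      have hdis : Disjoint B η'.toFinset := by
        rw [Finset.disjoint_right]
        intro x hx
        exact hav' x (List.mem_toFinset.mp hx)
      have hne' : (η'.toFinset).Nonempty := ⟨w, by simp [hη']⟩
      have hvη' : v ∉ η'.toFinset := by simpa using hvη
      have hvu : v ∉ B ∪ η'.toFinset := by
        rw [Finset.mem_union]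
        rintro (h | h)
        · exact hvB h
        · exact hvη' h
      rw [List.toFinset_cons] at hu ⊢
      obtain ⟨u₁, hu₁⟩ := hex {v} η'.toFinset
        (by rw [Finset.disjoint_singleton_left]; exact hvη') ⟨v, by simp⟩
      obtain ⟨u₃, hu₃⟩ := hex {v} (B ∪ η'.toFinset)
        (by rw [Finset.disjoint_singleton_left]; exact hvu) ⟨v, by simp⟩
      obtain ⟨u₄, hu₄⟩ := hex B η'.toFinset hdis (hB.mono Finset.subset_union_left)
      have hray := hRAY V G d K hR hK B η'.toFinset v hB hne' hdis hvB hvη' u₁ u u₃ u₄ hu₁ hu hu₃ hu₄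
      have hZ1 := h2 V G d K hR hK (B ∪ η'.toFinset) v (hB.mono Finset.subset_union_left) hvu u₃ hu₃
      have hZ2 := h2 V G d K hR hK η'.toFinset v hne' hvη' u₁ hu₁
      have hI := ih hp' hav' u₄ hu₄
      have hE : 0 < dir K u₁ u₁ := hpos {v} η'.toFinset u₁ hu₁ ⟨v, by simp⟩ hne'
      rw [Finset.union_insert]
      rw [hZ1, hZ2] at hI
      set a : ℝ := ((fors G (insert v (B ∪ η'.toFinset))).card : ℝ) with ha
      set b : ℝ := ((fors G (insert v η'.toFinset)).card : ℝ) with hb
      have ha0 : 0 ≤ a := Nat.cast_nonneg _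
      have hy0 : (0 : ℝ) ≤ (fors G {y}).card := Nat.cast_nonneg _
      have hc : 0 < 2 * (d : ℝ) * dir K u₁ u₁ := by positivity
      refine le_of_mul_le_mul_left ?_ hc
      have hm := mul_le_mul_of_nonneg_left hray
        (by positivity : 0 ≤ 2 * (d : ℝ) * (2 * d) * a * (fors G {y}).card)
      nlinarith [hm, hI]

theorem H5 (hX : HX_stmt) (hRAY : RAY_stmt) (h2 : H2_stmt) (h3 : H3_stmt) : H5_stmt := by
  intro V _ _ G d K hR hK B y η hB hp hav
  obtain ⟨-, -, hex, -, -, -⟩ := hX V G d K hR hK
  have hdis : Disjoint B η.toFinset := by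
    rw [Finset.disjoint_right]
    intro x hx
    exact hav x (List.mem_toFinset.mp hx)
  obtain ⟨u, hu⟩ := hex B η.toFinset hdis (hB.mono Finset.subset_union_left)
  rw [h3 V G d K hR hK B y η hB hp hav u hu]
  exact H5_main hX hRAY h2 V G d K hR hK B y hB η hp hav u hu

end Pool.Agent.helper66.FB
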